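import Mathlib
import Pool.Agent.TH796.Fin.Fin8

set_option autoImplicit false

/-!
# The digits of `π + e` and `π e` in two independent bases

Let `S` be an infinite set of integers. For a set `A` of bases let `K_A` be the field generated by
all real numbers with `O(n)` different blocks of `n` digits, `n ∈ S`, in some base of `A`.

(1) If `A` and `B` generate subgroups of the multiplicative group of `ℚ` with trivial intersection,
then, for `K = K_A` or for `K = K_B`, every monic polynomial with real coefficients and the root `e`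
has a coefficient which is transcendental over `K`. For `(X - π) (X - e) = X² - (π + e) X + π e` this
says that one of `π + e`, `π e` is transcendental over `K`; the classical fact is the case of `ℚ`
instead of `K`.

(2) If `b` and `c` are multiplicatively independent, then the largest one of the four numbers of
different blocks of `n` digits of `π + e` and of `π e` in the bases `b` and `c`, divided by `n`,
tends to infinity. The same holds for the coefficients of a monic polynomial with root `e` in the
base `b` and the coefficients of a monic polynomial with root `e` in the base `c`.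

(3) For every `S` all the bases `b`, apart from the bases multiplicatively dependent on one base `c`,
have the property of (1), for the field generated by the real numbers with `O(n)` different blocks
of `n` digits, `n ∈ S`, in some base multiplicatively dependent on `b`.
-/

namespace Pool.Agent.Results.MP_a49cf6_nt.DigitsInTwoBases

open Filter Polynomial

/-- the digit of index `n + 1` after the point in the base `b` expansion of `x` -/
noncomputable def digit (b : ℕ) (x : ℝ) (n : ℕ) : ℤ := ⌊x * (b : ℝ) ^ (n + 1)⌋ % (b : ℤ)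

/-- the number of different blocks of `n` consecutive digits (after the point) of `x` in base `b` -/
noncomputable def blocks (b : ℕ) (x : ℝ) (n : ℕ) : ℕ :=
  (Set.range fun i => fun j : Fin n => digit b x (i + j)).ncard

/-- the field generated by all real numbers which in some base `b ∈ A` have at most `C n` different
blocks of `n` digits for all `n ∈ S`; `b` and `C` may depend on the number. It contains `ℚ`. -/
noncomputable def lowField (S A : Set ℕ) : Subfield ℝ :=
  Subfield.closure {x | ∃ b ∈ A, ∃ C : ℝ, ∀ n ∈ S, (blocks b x n : ℝ) ≤ C * n}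

/-- the subgroup of the multiplicative group of `ℚ` generated by `A` -/
def group (A : Set ℕ) : Subgroup ℚˣ := Subgroup.closure {u | ∃ b ∈ A, ((u : ℚˣ) : ℚ) = b}

/-- multiplicatively independent bases -/
def Independent (b c : ℕ) : Prop := ∀ k l : ℕ, b ^ k = c ^ l → k = 0 ∧ l = 0

/-- Every monic polynomial with real coefficients and with the root `e` has a coefficient which is
transcendental over `K`. -/
def Good (K : Subfield ℝ) : Prop :=
  ∀ p : ℝ[X], p.Monic → p.eval (Real.exp 1) = 0 → ∃ i, Transcendental K (p.coeff i)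

/-- the largest number of different blocks of `n` digits in base `b` of a coefficient of `p` -/
noncomputable def maxBlocks (b : ℕ) (p : ℝ[X]) (n : ℕ) : ℕ :=
  (Finset.range (p.natDegree + 1)).sup fun i => blocks b (p.coeff i) n

theorem good_of {K : Subfield ℝ} (h : Transcendental K (Real.exp 1)) : Good K := by
  intro p hp hroot
  by_contra hcon
  unfold Transcendental at hcon
  push Not at hcon
  apply h
  -- `e` is algebraic over the algebraic closure of `K` in `ℝ`
  have halg : Algebra.IsAlgebraic K (algebraicClosure K ℝ) := algebraicClosure.isAlgebraic K ℝ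
  have hint : IsAlgebraic (algebraicClosure K ℝ) (Real.exp 1) := by
    have hmem : ∀ i, p.coeff i ∈ (algebraicClosure K ℝ).toSubalgebra.toSubring := fun i =>
      mem_algebraicClosure_iff.2 (hcon i)
    have hl : p ∈ Polynomial.lifts (algebraMap (algebraicClosure K ℝ) ℝ) := by
      rw [Polynomial.lifts_iff_coeff_lifts]
      intro i
      exact ⟨⟨p.coeff i, hmem i⟩, rfl⟩
    obtain ⟨q, hq⟩ := hl
    have hq' : q.map (algebraMap (algebraicClosure K ℝ) ℝ) = p := by
      rw [← Polynomial.coe_mapRingHom]
      exact hq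
    refine ⟨q, ?_, ?_⟩
    · rintro rfl
      rw [Polynomial.map_zero] at hq'
      rw [← hq'] at hp
      exact not_monic_zero hp
    · rw [aeval_def, ← eval_map, hq', hroot]
  exact hint.restrictScalars K

theorem root_pair (t : ℝ) : (X ^ 2 - C (t + Real.exp 1) * X + C (t * Real.exp 1) : ℝ[X]).Monic ∧
    (X ^ 2 - C (t + Real.exp 1) * X + C (t * Real.exp 1) : ℝ[X]).eval (Real.exp 1) = 0 := by
  constructor
  · monicity!
  · simp only [eval_add, eval_sub, eval_pow, eval_X, eval_mul, eval_C]
    ring

theorem Good.pair {K : Subfield ℝ} (h : Good K) (t : ℝ) :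
    Transcendental K (t + Real.exp 1) ∨ Transcendental K (t * Real.exp 1) := by
  by_contra hcon
  unfold Transcendental at hcon
  push Not at hcon
  obtain ⟨h1, h2⟩ := hcon
  obtain ⟨i, hi⟩ := h _ (root_pair t).1 (root_pair t).2
  apply hi
  have hc : (X ^ 2 - C (t + Real.exp 1) * X + C (t * Real.exp 1) : ℝ[X]).coeff i =
      (if i = 2 then 1 else 0) - (t + Real.exp 1) * (if i = 1 then 1 else 0) +
        (if i = 0 then t * Real.exp 1 else 0) := by
    simp only [coeff_add, coeff_sub, coeff_X_pow, coeff_C_mul, coeff_X, coeff_C]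
    congr 2
    simp only [eq_comm]
  rw [hc]
  have a1 : IsAlgebraic K (1 : ℝ) := isAlgebraic_one
  have a0 : IsAlgebraic K (0 : ℝ) := isAlgebraic_zero
  refine ((?_ : IsAlgebraic K _).sub (h1.mul ?_)).add ?_
  · split_ifs
    · exact a1
    · exact a0
  · split_ifs
    · exact a1
    · exact a0
  · split_ifs
    · exact h2
    · exact a0

theorem mem_lowField {S A : Set ℕ} {b : ℕ} (hb : b ∈ A) {x : ℝ} {C : ℝ}
    (h : ∀ n ∈ S, (blocks b x n : ℝ) ≤ C * n) : x ∈ lowField S A :=
  Subfield.subset_closure ⟨b, hb, C, h⟩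

theorem not_transc {K : Subfield ℝ} {x : ℝ} (h : x ∈ K) : ¬ Transcendental K x := by
  intro h1
  exact h1 (isAlgebraic_algebraMap (⟨x, h⟩ : K))

/-- **The digits of `π + e` and `π e`.** See the text at the beginning of the file. -/
theorem result :
    (∀ S : Set ℕ, S.Infinite → ∀ A B : Set ℕ, (∀ b ∈ A, 2 ≤ b) → (∀ b ∈ B, 2 ≤ b) →
      group A ⊓ group B = ⊥ →
      ∃ K : Subfield ℝ, (K = lowField S A ∨ K = lowField S B) ∧ Good K ∧
        (Transcendental K (Real.pi + Real.exp 1) ∨ Transcendental K (Real.pi * Real.exp 1))) ∧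
    (∀ b c : ℕ, 2 ≤ b → 2 ≤ c → Independent b c →
      Tendsto (fun n : ℕ => ((max
        (max (blocks b (Real.pi + Real.exp 1) n) (blocks b (Real.pi * Real.exp 1) n))
        (max (blocks c (Real.pi + Real.exp 1) n) (blocks c (Real.pi * Real.exp 1) n)) : ℕ) : ℝ) / n)
        atTop atTop ∧
      ∀ p q : ℝ[X], p.Monic → q.Monic → p.eval (Real.exp 1) = 0 → q.eval (Real.exp 1) = 0 →
        Tendsto (fun n : ℕ => ((max (maxBlocks b p n) (maxBlocks c q n) : ℕ) : ℝ) / n)
          atTop atTop) ∧
    (∀ S : Set ℕ, S.Infinite → ∃ c : ℕ, 2 ≤ c ∧ ∀ b : ℕ, 2 ≤ b → Independent b c →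
      Good (lowField S {d | 2 ≤ d ∧ ¬ Independent d b})) := by
  have hm : Pool.Agent.TH456.TM.MeasT ((Real.exp 1 : ℝ) : ℂ) :=
    Pool.Agent.TH796.AL.Ai.measT_of (Or.inl rfl)
  have ht : Transcendental ℚ (Real.exp 1) := Pool.Agent.TH796.AL.Alg.transc_of_measT hm
  have hU : ¬ Pool.Agent.TH796.AL.Ai.UNumber (Real.exp 1) :=
    Pool.Agent.TH796.AL.Ai.not_unumber hm
  have h1 : ∀ S : Set ℕ, S.Infinite → ∀ A B : Set ℕ, (∀ b ∈ A, 2 ≤ b) → (∀ b ∈ B, 2 ≤ b) →
      group A ⊓ group B = ⊥ → Good (lowField S A) ∨ Good (lowField S B) := by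
    intro S hS A B hA hB hAB
    rcases Pool.Agent.TH796.AL.Alg.free_pair ht hU hA hB hAB hS with h | h
    · exact Or.inl (good_of h.1)
    · exact Or.inr (good_of h.1)
  -- a growth statement for arbitrary functions
  have h2 : ∀ b c : ℕ, 2 ≤ b → 2 ≤ c → Independent b c → ∀ f : ℕ → ℕ,
      (∀ K : Subfield ℝ, Good K → (∃ x : ℝ, Transcendental K x ∧ ∀ n, blocks b x n ≤ f n)) →
      (∀ K : Subfield ℝ, Good K → (∃ x : ℝ, Transcendental K x ∧ ∀ n, blocks c x n ≤ f n)) →
        Tendsto (fun n : ℕ => (f n : ℝ) / n) atTop atTop := by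
    intro b c hb hc hbc f hfb hfc
    by_contra hcon
    rw [tendsto_atTop] at hcon
    push Not at hcon
    obtain ⟨C, hC⟩ := hcon
    set S : Set ℕ := {n : ℕ | 1 ≤ n ∧ (f n : ℝ) / n < C} with hSdef
    have hS : S.Infinite := by
      rw [← Nat.frequently_atTop_iff_infinite]
      exact (hC.and_eventually (eventually_ge_atTop 1)).mono fun n hn => ⟨hn.2, hn.1⟩
    have hle : ∀ n ∈ S, (f n : ℝ) ≤ C * n := by
      rintro n ⟨hn1, hn2⟩
      have hn0 : (0:ℝ) < n := by exact_mod_cast hn1
      exact ((div_lt_iff₀ hn0).1 hn2).le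
    rcases h1 S hS {b} {c} (by simpa using hb) (by simpa using hc)
      (Pool.Agent.TH796.AL.Ai.group_inf hb hc hbc) with h | h
    · obtain ⟨x, hx, hxf⟩ := hfb _ h
      exact not_transc (mem_lowField (Set.mem_singleton b) fun n hn =>
        le_trans (by exact_mod_cast hxf n) (hle n hn)) hx
    · obtain ⟨x, hx, hxf⟩ := hfc _ h
      exact not_transc (mem_lowField (Set.mem_singleton c) fun n hn =>
        le_trans (by exact_mod_cast hxf n) (hle n hn)) hx
  have hco : ∀ (b : ℕ) (p : ℝ[X]) (i n : ℕ) (K : Subfield ℝ), Transcendental K (p.coeff i) →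
      blocks b (p.coeff i) n ≤ maxBlocks b p n := by
    intro b p i n K hi
    refine Finset.le_sup (f := fun i => blocks b (p.coeff i) n) (Finset.mem_range.2 ?_)
    by_contra hlt
    apply hi
    rw [coeff_eq_zero_of_natDegree_lt (by omega)]
    exact isAlgebraic_zero
  refine ⟨fun S hS A B hA hB hAB => ?_, fun b c hb hc hbc => ⟨?_, ?_⟩, fun S hS => ?_⟩
  · rcases h1 S hS A B hA hB hAB with h | h
    · exact ⟨_, Or.inl rfl, h, h.pair Real.pi⟩
    · exact ⟨_, Or.inr rfl, h, h.pair Real.pi⟩
  · refine h2 b c hb hc hbc _ ?_ ?_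
    · intro K hK
      rcases hK.pair Real.pi with h | h
      · exact ⟨_, h, fun n => (le_max_left _ _).trans (le_max_left _ _)⟩
      · exact ⟨_, h, fun n => (le_max_right _ _).trans (le_max_left _ _)⟩
    · intro K hK
      rcases hK.pair Real.pi with h | h
      · exact ⟨_, h, fun n => (le_max_left _ _).trans (le_max_right _ _)⟩
      · exact ⟨_, h, fun n => (le_max_right _ _).trans (le_max_right _ _)⟩
  · intro p q hp hq hpe hqe
    refine h2 b c hb hc hbc _ ?_ ?_
    · intro K hK
      obtain ⟨i, hi⟩ := hK p hp hpe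
      exact ⟨_, hi, fun n => (hco b p i n K hi).trans (le_max_left _ _)⟩
    · intro K hK
      obtain ⟨i, hi⟩ := hK q hq hqe
      exact ⟨_, hi, fun n => (hco c q i n K hi).trans (le_max_right _ _)⟩
  · obtain ⟨c, hc, h⟩ := Pool.Agent.TH796.Fin.free_cls ht hU hS
    exact ⟨c, hc, fun b hb hbc => good_of (h b hb hbc).1⟩

end Pool.Agent.Results.MP_a49cf6_nt.DigitsInTwoBases
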