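import Mathlib
import Pool.Agent.H118.SY.Count
import Pool.Agent.TH456.TM.AlgDep
import Pool.Agent.TH456.TM.E

set_option autoImplicit false

/-!
# A measure of simultaneous approximation for six exponentials, and the numbers `e ^ e`, `π ^ e`, `π ^ π`

Let `θ` be a complex number with a transcendence measure of finite type in every degree (an `S`- or a
`T`-number of Mahler's classification), for example a transcendental number which is algebraic over
`ℚ(ω)`, where `ω` is `e`, `π` or the logarithm of a rational number.  Let `l ≠ 0` be an arbitrary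
complex number.

(1) Let `Q_1, Q_2` and `P_1, P_2, P_3` be two systems of linearly independent polynomials with
integral coefficients. For every `d` there is `C` such that for all `H ≥ 2` one of the six numbers
`exp (l Q_i(θ) P_j(θ))` has distance greater than `exp (-C (log H) ^ 253)` from all algebraic numbers
of degree at most `d` and height at most `H`.

(2) For all `d` and `N` there is `C` such that for all `H ≥ 2` the number `m` of the `n < N` for which
`exp (l θ ^ n)` has an algebraic approximation of degree at most `d`, of height at most `H` and with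
an error of at most `exp (-C (log H) ^ 253)` satisfies `m (m - 1) ≤ 4 (N - 1)`; so `m ≤ 2 √N + 1`.

(3) In particular at every scale `H` at most `2 √N + 1` of the numbers `e ^ (e ^ n)`, at most
`2 √N + 1` of the numbers `π ^ (e ^ n)` and at most `2 √N + 1` of the numbers `π ^ (π ^ n)`, `1 ≤ n ≤ N`,
are that close to algebraic numbers (for instance rational). The numbers `e ^ e`, `π ^ e`, `π ^ π` are the
first members of the three sequences.

The proof: the method of the starting files `Pool/Agent/R347/SX` (a quantitative six exponentials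
theorem over tower scales) with parameters that are powers of `log H`, and the transcendence measures
of `θ` of the starting files `Pool/Agent/TH456/TM`.
-/

namespace Pool.Agent.Results.MP_a49cf6_nt.SixExponentialsMeasure

open Polynomial

/-- `a` is a zero of a nonzero integer polynomial of degree at most `d` whose coefficients have
absolute value at most `H`. -/
def Bounded (d H : ℕ) (a : ℂ) : Prop :=
  ∃ P : ℤ[X], P ≠ 0 ∧ P.natDegree ≤ d ∧ (∀ n, |P.coeff n| ≤ H) ∧ aeval a P = 0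

/-- `z` has distance at most `exp (-C (log H) ^ 253)` from an algebraic number of degree at most `d`
and height at most `H`. -/
def Near (d C H : ℕ) (z : ℂ) : Prop :=
  ∃ a, Bounded d H a ∧ ‖z - a‖ ≤ Real.exp (-(C * Real.log H ^ 253))

/-- `θ` has a transcendence measure of finite type in every degree: for every `D` there are `κ` and
`c > 0` with `|P(θ)| ≥ c / H ^ κ` for all nonzero integer polynomials `P` of degree at most `D` with
coefficients of absolute value at most `H`. -/
def FiniteType (θ : ℂ) : Prop :=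
  ∀ D : ℕ, ∃ κ c : ℝ, 0 ≤ κ ∧ 0 < c ∧ ∀ P : ℤ[X], P ≠ 0 → P.natDegree ≤ D →
    ∀ H : ℝ, 1 ≤ H → (∀ n, |(P.coeff n : ℝ)| ≤ H) → c ≤ H ^ κ * ‖aeval θ P‖

/-- `θ` is transcendental, and it is algebraic over the ring generated by `e`, by `π` or by the
logarithm of a positive rational number other than `1`. -/
def Base (θ : ℂ) : Prop :=
  Transcendental ℤ θ ∧ ∃ ω : ℝ, (ω = Real.exp 1 ∨ ω = Real.pi ∨ ∃ q : ℚ, (0 < q ∧ q ≠ 1) ∧ ω = Real.log q) ∧
    IsAlgebraic (Algebra.adjoin ℤ ({(ω : ℂ)} : Set ℂ)) θ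

theorem Base.meas {θ : ℂ} (h : Base θ) : FiniteType θ := by
  obtain ⟨htr, ω, hω, halg⟩ := h
  rcases hω with rfl | rfl | ⟨q, hq, rfl⟩
  · exact Pool.Agent.TH456.TM.measT_of_isAlgebraic Pool.Agent.TH456.TM.measT_e θ halg htr
  · exact Pool.Agent.TH456.TM.measT_of_isAlgebraic Pool.Agent.TH456.TM.measT_pi θ halg htr
  · exact Pool.Agent.TH456.TM.measT_of_isAlgebraic
      (Pool.Agent.TH456.TM.measT_real_log q hq.1 hq.2) θ halg htr

theorem count (θ : ℂ) (hθ : FiniteType θ) (l : ℂ) (hl : l ≠ 0) (d N : ℕ) :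
    ∃ C : ℕ, ∀ H : ℕ, 2 ≤ H → ∀ m : ℕ,
      m = {n : ℕ | n < N ∧ Near d C H (Complex.exp (l * θ ^ n))}.ncard →
      m * (m - 1) ≤ 4 * (N - 1) := by
  classical
  obtain ⟨κ, hκ⟩ := Pool.Agent.H118.SY.count_near θ hθ l hl d N
  refine ⟨κ, fun H hH m hm => ?_⟩
  have hfin : {n : ℕ | n < N ∧ Near d κ H (Complex.exp (l * θ ^ n))}.Finite :=
    (Set.finite_lt_nat N).subset fun n hn => hn.1
  rw [Set.ncard_eq_toFinset_card _ hfin] at hm
  have h1 := hκ H hH hfin.toFinset (fun n hn => (hfin.mem_toFinset.1 hn).1)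
    (fun n hn => (hfin.mem_toFinset.1 hn).2)
  rw [← hm] at h1
  rwa [Nat.mul_sub, mul_one]

theorem count_one (θ : ℂ) (hθ : FiniteType θ) (l : ℂ) (hl : l ≠ 0) (d N : ℕ) (f : ℕ → ℝ)
    (hf : ∀ n, (f n : ℂ) = Complex.exp (l * θ ^ n)) :
    ∃ C : ℕ, ∀ H : ℕ, 2 ≤ H → ∀ m : ℕ,
      m = {n : ℕ | 1 ≤ n ∧ n ≤ N ∧ Near d C H (f n)}.ncard → m * (m - 1) ≤ 4 * (N - 1) := by
  classical
  have hθ0 : θ ≠ 0 := Pool.Agent.TH456.TM.measT_ne_zero hθ
  obtain ⟨κ, hκ⟩ := count θ hθ (l * θ) (mul_ne_zero hl hθ0) d N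
  refine ⟨κ, fun H hH m hm => hκ H hH m ?_⟩
  rw [hm]
  have himg : {n : ℕ | 1 ≤ n ∧ n ≤ N ∧ Near d κ H (f n)} =
      (fun n => n + 1) '' {n : ℕ | n < N ∧ Near d κ H (Complex.exp (l * θ * θ ^ n))} := by
    ext n
    simp only [Set.mem_setOf_eq, Set.mem_image]
    constructor
    · rintro ⟨h1, h2, h3⟩
      refine ⟨n - 1, ⟨by omega, ?_⟩, by omega⟩
      rw [hf] at h3
      rw [mul_assoc, ← pow_succ', Nat.sub_add_cancel h1]
      exact h3
    · rintro ⟨k, ⟨h1, h2⟩, rfl⟩
      refine ⟨by omega, by omega, ?_⟩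
      rw [hf, pow_succ', ← mul_assoc]
      exact h2
  rw [himg, Set.ncard_image_of_injective _ (add_left_injective 1)]

/-- **Main result.** -/
theorem result :
    -- the numbers `θ` to which the theorem applies
    (∀ θ : ℂ, Base θ → FiniteType θ) ∧
    -- (1) the six exponentials
    (∀ θ : ℂ, FiniteType θ → ∀ l : ℂ, l ≠ 0 → ∀ (Q : Fin 2 → ℤ[X]) (P : Fin 3 → ℤ[X]),
      LinearIndependent ℤ Q → LinearIndependent ℤ P → ∀ d : ℕ, ∃ C : ℕ, ∀ H : ℕ, 2 ≤ H →
      ∃ i j, ¬ Near d C H (Complex.exp (l * aeval θ (Q i) * aeval θ (P j)))) ∧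
    -- (2) the powers of `θ`
    (∀ θ : ℂ, FiniteType θ → ∀ l : ℂ, l ≠ 0 → ∀ d N : ℕ, ∃ C : ℕ, ∀ H : ℕ, 2 ≤ H → ∀ m : ℕ,
      m = {n : ℕ | n < N ∧ Near d C H (Complex.exp (l * θ ^ n))}.ncard →
      m * (m - 1) ≤ 4 * (N - 1)) ∧
    -- (3) three sequences which begin with `e ^ e`, `π ^ e` and `π ^ π`
    (∀ f : ℕ → ℝ, (f = fun n => Real.exp 1 ^ (Real.exp 1 ^ n)) ∨
      (f = fun n => Real.pi ^ (Real.exp 1 ^ n)) ∨ (f = fun n => Real.pi ^ (Real.pi ^ n)) →
      ∀ d N : ℕ, ∃ C : ℕ, ∀ H : ℕ, 2 ≤ H → ∀ m : ℕ,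
        m = {n : ℕ | 1 ≤ n ∧ n ≤ N ∧ Near d C H (f n)}.ncard → m * (m - 1) ≤ 4 * (N - 1)) := by
  refine ⟨fun θ hθ => hθ.meas, fun θ hθ l hl Q P hQ hP d => ?_, count, ?_⟩
  · exact Pool.Agent.H118.SY.six_near θ hθ l hl Q P hQ hP d
  · have he : FiniteType ((Real.exp 1 : ℝ) : ℂ) := Pool.Agent.TH456.TM.measT_e
    have hp : FiniteType ((Real.pi : ℝ) : ℂ) := Pool.Agent.TH456.TM.measT_pi
    have hlog : ((Real.log Real.pi : ℝ) : ℂ) ≠ 0 := by
      have h3 := Real.pi_gt_three
      have : 0 < Real.log Real.pi := Real.log_pos (by linarith)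
      exact_mod_cast this.ne'
    rintro f (rfl | rfl | rfl) d N
    · refine count_one _ he 1 one_ne_zero d N _ fun n => ?_
      rw [one_mul, Real.rpow_def_of_pos (Real.exp_pos 1), Real.log_exp, one_mul]
      push_cast
      rfl
    · refine count_one _ he ((Real.log Real.pi : ℝ) : ℂ) hlog d N _ fun n => ?_
      rw [Real.rpow_def_of_pos Real.pi_pos]
      push_cast
      rfl
    · refine count_one _ hp ((Real.log Real.pi : ℝ) : ℂ) hlog d N _ fun n => ?_
      rw [Real.rpow_def_of_pos Real.pi_pos]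
      push_cast
      rfl

end Pool.Agent.Results.MP_a49cf6_nt.SixExponentialsMeasure
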